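import Pool.Agent.Q279.FB.Main

/-!
# Q2 of MP_f38b71_nt
-/

set_option autoImplicit false

namespace Q279.FB.CM

open PowerSeries

/-- The thirteen `j`-invariants of elliptic curves over `ℚ` with complex multiplication
(discriminants `-3, -4, -7, -8, -11, -12, -16, -19, -27, -28, -43, -67, -163`). -/
def CMj : Set ℚ := {0, 1728, -3375, 8000, -32768, 54000, 287496, -884736, -12288000, 16581375,
  -884736000, -147197952000, -262537412640768000}

/-- `v_p(a_{n p^l} - u^{k-2} a_{n p^{l-1}}) ≥ (k-1) l`, where `a_m` are the coefficients of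
`E_k/(j - j0)` -/
def Holds2 (k : ℕ) (j0 : ℚ) (p : ℕ) [Fact p.Prime] (u : ℤ_[p]) (n l : ℕ) : Prop :=
  ‖(((F k 1 j0).coeff ((n * p ^ l : ℕ) : ℤ) : ℚ) : ℚ_[p]) -
      (u : ℚ_[p]) ^ (k - 2) * (((F k 1 j0).coeff ((n * p ^ (l - 1) : ℕ) : ℤ) : ℚ) : ℚ_[p])‖ ≤
    (p : ℝ) ^ (-(((k : ℤ) - 1) * l))

/-- The statement of Q2. -/
def Q2 : Prop :=
  ∀ k ∈ ({4, 6, 8, 10, 14} : Finset ℕ), ∀ (C : WeierstrassCurve ℚ) [C.IsElliptic],
    C.j ∈ CMj → C.j ≠ 0 → C.j ≠ 1728 → ∀ (p : ℕ) [Fact p.Prime], ∀ W : WeierstrassCurve ℤ,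
      GoodModel C p W → ¬ (p : ℤ) ∣ ap W p → padicValRat p C.j = 0 →
        padicValRat p (C.j - 1728) = 0 → ∀ u : ℤ_[p], IsUnit u →
          u ^ 2 - (ap W p : ℤ_[p]) * u + (p : ℤ_[p]) = 0 →
            ∀ n l : ℕ, 1 ≤ n → 1 ≤ l → Holds2 k C.j p u n l

/-- `E_4^3 - 16581375 Δ` -/
noncomputable def yT : ℤ⟦X⟧ := z4 ^ 3 - 16581375 * zD

theorem const_yT : constantCoeff yT = 1 := by
  unfold yT z4
  simp [const_A, const_D]

/-- `E_4 Δ/(E_4^3 - 16581375 Δ)` -/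
noncomputable def yF : ℤ⟦X⟧ := z4 * zD * invOfUnit yT 1

theorem yT_inv : yT * invOfUnit yT 1 = 1 := mul_invOfUnit yT 1 (by simp [const_yT])

theorem yF_mul : yF * yT = z4 * zD := by
  unfold yF
  rw [mul_assoc, mul_comm (invOfUnit yT 1), yT_inv, mul_one]

theorem io_yT_ne : io yT ≠ 0 := by
  intro h
  have h1 : io (yT * invOfUnit yT 1) = 1 := by rw [yT_inv, map_one]
  rw [map_mul, h, zero_mul] at h1
  exact zero_ne_one h1

theorem F_eq : F 4 1 16581375 = io yF := by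
  have e4 : (E 4 : LaurentSeries ℚ) = io z4 := by rw [E4_eq]; rfl
  have eD : (Delta : LaurentSeries ℚ) = io zD := by rw [Delta_eq]; rfl
  have hD := io_D_ne
  have hT := io_yT_ne
  have eT : io yT = io z4 ^ 3 - 16581375 * io zD := by
    unfold yT
    rw [map_sub, map_pow, map_mul, map_ofNat]
  have eC : (HahnSeries.C (16581375 : ℚ) : LaurentSeries ℚ) = 16581375 :=
    map_ofNat HahnSeries.C 16581375
  unfold F j
  rw [e4, eD, eC, pow_one]
  have h1 : io z4 ^ 3 / io zD - 16581375 = io yT / io zD := by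
    rw [eT]
    field_simp
  rw [h1]
  have h2 := congrArg io yF_mul
  rw [map_mul, map_mul] at h2
  rw [div_div_eq_mul_div, div_eq_iff hT, ← h2]

theorem anti1 : Finset.HasAntidiagonal.antidiagonal (1 : ℕ) = {(0, 1), (1, 0)} := rfl
theorem anti2 : Finset.HasAntidiagonal.antidiagonal (2 : ℕ) = {(0, 2), (1, 1), (2, 0)} := rfl

theorem c0 (G : ℤ⟦X⟧) : coeff 0 G = constantCoeff G := coeff_zero_eq_constantCoeff_apply G

theorem m1 (F G : ℤ⟦X⟧) : coeff 1 (F * G) = constantCoeff F * coeff 1 G + coeff 1 F * constantCoeff G := by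
  rw [coeff_mul, anti1, Finset.sum_pair (by decide), c0, c0]

theorem m2 (F G : ℤ⟦X⟧) : coeff 2 (F * G) = constantCoeff F * coeff 2 G + coeff 1 F * coeff 1 G +
    coeff 2 F * constantCoeff G := by
  rw [coeff_mul, anti2, Finset.sum_insert (by decide), Finset.sum_pair (by decide), c0, c0]
  ring

theorem div2 : (2 : ℕ).divisors = {1, 2} := by decide

theorem A1 : coeff 1 zA = 1 := by rw [zA, coeff_mk]; simp
theorem A2 : coeff 2 zA = 9 := by rw [zA, coeff_mk, div2]; rfl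
theorem B1 : coeff 1 zB = 1 := by rw [zB, coeff_mk]; simp
theorem Qc1 : coeff 1 zQ = 1 := by rw [zQ, coeff_mk]; simp
theorem Qc2 : coeff 2 zQ = 23 := by rw [zQ, coeff_mk, div2]; rfl

theorem E41 : coeff 1 z4 = 240 := by
  have e : (240 : ℤ⟦X⟧) = C 240 := (map_ofNat C 240).symm
  rw [z4, map_add, e, coeff_C_mul, A1, coeff_one, if_neg (by norm_num)]
  norm_num

theorem E40 : constantCoeff z4 = 1 := by
  unfold z4; simp [const_A]

theorem D2 : coeff 2 zD = -24 := by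
  have e1 : (100 : ℤ⟦X⟧) = C 100 := (map_ofNat C 100).symm
  have e2 : (8000 : ℤ⟦X⟧) = C 8000 := (map_ofNat C 8000).symm
  have e3 : (147 : ℤ⟦X⟧) = C 147 := (map_ofNat C 147).symm
  have h3 : coeff 2 (zA ^ 3) = 0 := by
    have h2 : (X : ℤ⟦X⟧) ^ 3 ∣ zA ^ 3 := pow_dvd_pow_of_dvd (X_dvd_iff.2 const_A) 3
    exact X_pow_dvd_iff.1 h2 2 (by norm_num)
  unfold zD
  rw [e1, e2, e3, map_sub, map_add, map_add, coeff_C_mul, coeff_C_mul, coeff_C_mul, h3, Qc2,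
    pow_two, pow_two, m2, m2, const_A, const_B, A1, B1]
  norm_num

theorem T1 : coeff 1 yT = 720 - 16581375 := by
  have e : (16581375 : ℤ⟦X⟧) = C 16581375 := (map_ofNat C 16581375).symm
  unfold yT
  rw [map_sub, e, coeff_C_mul, D_coeff_one, pow_succ, pow_two, m1, m1, map_mul, E40, E41]
  norm_num

theorem F0 : constantCoeff yF = 0 := by
  unfold yF
  rw [map_mul, map_mul, const_D]; ring

theorem F1 : coeff 1 yF = 1 := by
  have h := congrArg (coeff 1) yF_mul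
  rw [m1, m1, F0, const_yT, const_D, E40, D_coeff_one] at h
  linarith

theorem F2 : coeff 2 yF = 16580871 := by
  have h := congrArg (coeff 2) yF_mul
  rw [m2, m2, F0, F1, const_yT, const_D, E40, E41, D_coeff_one, D2, T1] at h
  linarith

/-- the curve `y^2 + xy = x^3 - x^2 - 37x - 78` -/
def W₁ : WeierstrassCurve ℤ := ⟨1, -1, 0, -37, -78⟩

/-- the same curve over `ℚ` -/
def C₁ : WeierstrassCurve ℚ := ⟨1, -1, 0, -37, -78⟩

theorem W₁_Δ : W₁.Δ = 343 := by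
  unfold W₁ WeierstrassCurve.Δ WeierstrassCurve.b₂ WeierstrassCurve.b₄ WeierstrassCurve.b₆
    WeierstrassCurve.b₈
  norm_num

theorem C₁_Δ : C₁.Δ = 343 := by
  unfold C₁ WeierstrassCurve.Δ WeierstrassCurve.b₂ WeierstrassCurve.b₄ WeierstrassCurve.b₆
    WeierstrassCurve.b₈
  norm_num

instance C₁_ell : C₁.IsElliptic := ⟨by rw [C₁_Δ]; exact isUnit_iff_ne_zero.2 (by norm_num)⟩

theorem C₁_c₄ : C₁.c₄ = 1785 := by
  unfold C₁ WeierstrassCurve.c₄ WeierstrassCurve.b₂ WeierstrassCurve.b₄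
  norm_num

theorem C₁_j : C₁.j = 16581375 := by
  unfold WeierstrassCurve.j
  rw [C₁_c₄]
  have h : ((C₁.Δ'⁻¹ : ℚˣ) : ℚ) = 1 / 343 := by
    rw [Units.val_inv_eq_inv_val, WeierstrassCurve.coe_Δ', C₁_Δ]
    norm_num
  rw [h]
  norm_num

theorem good₁ : GoodModel C₁ 2 W₁ where
  model := ⟨1, by
    rw [one_smul]
    unfold C₁ W₁ WeierstrassCurve.map
    norm_num⟩
  good := by rw [W₁_Δ]; norm_num

instance fact2 : Fact (Nat.Prime 2) := ⟨by norm_num⟩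

theorem card₁ : Nat.card (W₁.map (Int.castRingHom (ZMod 2))).toAffine.Point = 2 := by
  rw [Nat.card_congr (WeierstrassCurve.Affine.nonsingularPointEquiv _)]
  have h : ∀ xy : ZMod 2 × ZMod 2, (W₁.map (Int.castRingHom (ZMod 2))).toAffine.Nonsingular xy.1 xy.2 ↔
      (xy.2 ^ 2 + xy.1 * xy.2 = xy.1 ^ 3 - xy.1 ^ 2 - 37 * xy.1 - 78) := by
    intro xy
    rw [WeierstrassCurve.Affine.nonsingular_iff, WeierstrassCurve.Affine.equation_iff]
    simp only [W₁, WeierstrassCurve.map, WeierstrassCurve.toAffine]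
    obtain ⟨x, y⟩ := xy
    revert x y
    simp only [map_zero, map_neg, map_ofNat, map_one]
    decide
  have h2 : Nat.card {xy : ZMod 2 × ZMod 2 //
      (W₁.map (Int.castRingHom (ZMod 2))).toAffine.Nonsingular xy.1 xy.2} = 1 := by
    rw [Nat.card_congr (Equiv.subtypeEquivRight h), Nat.card_eq_fintype_card]
    decide
  have h3 : Nat.card (WithZero {xy : ZMod 2 × ZMod 2 //
      (W₁.map (Int.castRingHom (ZMod 2))).toAffine.Nonsingular xy.1 xy.2}) =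
      Nat.card {xy : ZMod 2 × ZMod 2 //
      (W₁.map (Int.castRingHom (ZMod 2))).toAffine.Nonsingular xy.1 xy.2} + 1 :=
    Finite.card_option
  rw [h3, h2]

theorem ap₁ : ap W₁ 2 = 1 := by
  unfold ap
  rw [card₁]
  norm_num

/-- the unit root exists -/
theorem exists_unit_root : ∃ u : ℤ_[2], IsUnit u ∧ u ^ 2 - (ap W₁ 2 : ℤ_[2]) * u + ((2 : ℕ) : ℤ_[2]) = 0 := by
  -- Hensel for `X^2 - X + 2` at `1`
  let f : Polynomial ℤ_[2] := Polynomial.X ^ 2 - Polynomial.X + Polynomial.C 2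
  have hf : ∀ a : ℤ_[2], f.aeval a = a ^ 2 - a + 2 := by
    intro a; simp [f]
  have hf' : ∀ a : ℤ_[2], f.derivative.aeval a = 2 * a - 1 := by
    intro a; simp [f, one_add_one_eq_two]
  have h2 : ‖(2 : ℤ_[2])‖ < 1 := by
    have := PadicInt.norm_p (p := 2)
    have h : ‖((2 : ℕ) : ℤ_[2])‖ < 1 := by rw [this]; norm_num
    exact_mod_cast h
  have h1 : ‖f.derivative.aeval (1 : ℤ_[2])‖ = 1 := by
    rw [hf']; norm_num
  obtain ⟨z, hz, hz2, -, -⟩ := hensels_lemma (F := f) (a := (1 : ℤ_[2])) (by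
    rw [h1, hf]; norm_num; exact h2)
  refine ⟨z, ?_, ?_⟩
  · rw [PadicInt.isUnit_iff]
    rw [h1] at hz2
    have h3 : ‖z - 1‖ < ‖(1 : ℤ_[2])‖ := by rw [norm_one]; exact hz2
    have h4 := PadicInt.norm_add_eq_max_of_ne (p := 2) (q := z - 1) (r := 1) h3.ne
    rw [sub_add_cancel, max_eq_right h3.le, norm_one] at h4
    exact h4
  · rw [hf] at hz
    rw [ap₁]
    push_cast
    linear_combination hz

theorem unit_sq : ∀ x : ZMod (2 ^ 3), IsUnit x → x ^ 2 = 1 := by decide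

theorem not_holds (u : ℤ_[2]) (hu : IsUnit u) : ¬ Holds2 4 C₁.j 2 u 1 1 := by
  intro h
  unfold Holds2 at h
  rw [C₁_j, F_eq] at h
  have e1 : (io yF).coeff (((1 * 2 ^ 1 : ℕ)) : ℤ) = ((coeff 2 yF : ℤ) : ℚ) := io_coeff yF 2
  have e2 : (io yF).coeff (((1 * 2 ^ (1 - 1) : ℕ)) : ℤ) = ((coeff 1 yF : ℤ) : ℚ) := io_coeff yF 1
  rw [e1, e2, F1, F2] at h
  have h1 : ‖((16580871 - u ^ 2 : ℤ_[2]))‖ ≤ (2 : ℝ) ^ (-((3 : ℕ) : ℤ)) := by
    have e : ((16580871 - u ^ 2 : ℤ_[2]) : ℚ_[2]) = (((16580871 : ℤ) : ℚ) : ℚ_[2]) -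
        (u : ℚ_[2]) ^ (4 - 2) * (((1 : ℤ) : ℚ) : ℚ_[2]) := by
      have e0 : (16580871 : ℤ_[2]) = ((16580871 : ℕ) : ℤ_[2]) := by norm_num
      have e1 : (((16580871 : ℕ) : ℤ_[2]) : ℚ_[2]) = ((16580871 : ℕ) : ℚ_[2]) :=
        PadicInt.coe_natCast _
      rw [e0, PadicInt.coe_sub, PadicInt.coe_pow, e1]
      norm_num
    rw [PadicInt.norm_def, e]
    refine h.trans_eq ?_
    norm_num
  have h2 := (PadicInt.norm_le_pow_iff_mem_span_pow (p := 2) _ 3).1 h1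
  rw [← PadicInt.ker_toZModPow, RingHom.mem_ker, map_sub, map_pow] at h2
  have h3 := unit_sq _ (hu.map (PadicInt.toZModPow (p := 2) 3))
  rw [h3] at h2
  have h4 : PadicInt.toZModPow (p := 2) 3 (16580871 : ℤ_[2]) = ((16580871 : ℕ) : ZMod (2 ^ 3)) := by
    exact map_natCast _ 16580871
  rw [h4] at h2
  revert h2
  decide

theorem main : ¬ Q2 ∧ (C₁.j = 16581375 ∧ GoodModel C₁ 2 W₁ ∧ ap W₁ 2 = 1 ∧
    ∀ u : ℤ_[2], IsUnit u → ¬ Holds2 4 C₁.j 2 u 1 1) := by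
  refine ⟨fun h => ?_, C₁_j, good₁, ap₁, not_holds⟩
  obtain ⟨u, hu, hu2⟩ := exists_unit_root
  refine not_holds u hu (h 4 (by decide) C₁ ?_ ?_ ?_ 2 W₁ good₁ ?_ ?_ ?_ u hu hu2 1 1 le_rfl le_rfl)
  · rw [C₁_j, CMj]; norm_num
  · rw [C₁_j]; norm_num
  · rw [C₁_j]; norm_num
  · rw [ap₁]; norm_num
  · rw [C₁_j]
    have : padicValRat 2 ((16581375 : ℕ) : ℚ) = 0 := by
      rw [padicValRat.of_nat, padicValNat.eq_zero_of_not_dvd (by norm_num)]; rfl
    exact_mod_cast this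
  · rw [C₁_j]
    have : padicValRat 2 ((16579647 : ℕ) : ℚ) = 0 := by
      rw [padicValRat.of_nat, padicValNat.eq_zero_of_not_dvd (by norm_num)]; rfl
    have e : (16581375 : ℚ) - 1728 = ((16579647 : ℕ) : ℚ) := by norm_num
    rw [e]
    exact this

end Q279.FB.CM
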