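import Pool.Agent.Q279.Pack.Basic

set_option autoImplicit false

namespace Q279.FB

open Q279.Pack

/-- the modulus `5^15` -/
abbrev M : ℕ := 30517578125

/-- packed `∑ σ_3(n) q^n` -/
@[irreducible] noncomputable def ka : ℕ := red 84 M 12 (sieve (fun d => Nat.pow d 3) 84 12)

/-- packed `∑ σ_5(n) q^n` -/
@[irreducible] noncomputable def kb : ℕ := red 84 M 12 (sieve (fun d => Nat.pow d 5) 84 12)

/-- `E_4` -/
@[irreducible] noncomputable def k4 : ℕ := red 84 M 12 (Nat.add 1 (Nat.add (Nat.mul 240 ka) (Nat.mul 0 ka)))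

/-- `E_6` -/
@[irreducible] noncomputable def k6 : ℕ := red 84 M 12 (Nat.add 1 (Nat.add (Nat.mul 30517577621 kb) (Nat.mul 0 kb)))

@[irreducible] noncomputable def k4s : ℕ := red 84 M 12 (Nat.mul k4 k4)
@[irreducible] noncomputable def k4c : ℕ := red 84 M 12 (Nat.mul k4s k4)
@[irreducible] noncomputable def k6s : ℕ := red 84 M 12 (Nat.mul k6 k6)

/-- `Δ`, using the inverse of `1728` -/
@[irreducible] noncomputable def kd : ℕ := red 84 M 12
  (Nat.add 0 (Nat.add (Nat.mul 16865906892 k4c) (Nat.mul 13651671233 k6s)))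

/-- `E_4^3 - 2304 Δ` -/
@[irreducible] noncomputable def kt : ℕ := red 84 M 12
  (Nat.add 0 (Nat.add (Nat.mul 1 k4c) (Nat.mul 30517575821 kd)))

/-- `1 - T` -/
@[irreducible] noncomputable def kv : ℕ := red 84 M 12
  (Nat.add 1 (Nat.add (Nat.mul 30517578124 kt) (Nat.mul 0 kt)))

noncomputable def inr (k : ℕ) : ℕ → ℕ → ℕ :=
  Nat.rec (motive := fun _ => ℕ → ℕ → ℕ) (fun _ G => G)
    (fun _ ih V G => ih (red 84 M 12 (Nat.mul V V)) (red 84 M 12 (Nat.mul G (Nat.add 1 V)))) k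

/-- the inverse of `T` -/
@[irreducible] noncomputable def kg : ℕ := red 84 M 12 (inr 12 kv 1)

@[irreducible] noncomputable def kf0 : ℕ := red 84 M 12 (Nat.mul k6 kd)

@[irreducible] noncomputable def kf : ℕ := red 84 M 12 (Nat.mul kf0 kg)

noncomputable def dg (x i : ℕ) : ℕ := Nat.mod (Nat.div x (Nat.pow 2 (Nat.mul 84 i))) (Nat.pow 2 84)

theorem chk : (Nat.beq (red 84 M 12 (Nat.mul kt kg)) 1 && (Nat.beq (dg kf 1) 1 &&
    (Nat.beq (dg kf 5) 17861451146 && (Nat.beq (dg kf 25) 19057055351 &&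
    (Nat.beq (dg kf 125) 6070835631 && (Nat.beq (dg kf 625) 9709971436 &&
    Nat.beq (dg kf 3125) 29454276391)))))) = true := by decide +kernel

end Q279.FB
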