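import Mathlib

/-!
# Definitions for Q1 of MP_fb382b_nt
-/

set_option autoImplicit false

namespace Q279.FB

/-- The level one Eisenstein series `E_k = 1 - (2k/B_k) ∑_{n ≥ 1} σ_{k-1}(n) q^n`. -/
noncomputable def E (k : ℕ) : PowerSeries ℚ :=
  PowerSeries.mk fun n => if n = 0 then 1 else
    -(2 * (k : ℚ) / bernoulli k) * (ArithmeticFunction.sigma (k - 1) n : ℚ)

/-- `Δ = (E_4^3 - E_6^2)/1728` -/
noncomputable def Delta : PowerSeries ℚ := PowerSeries.C (1 / 1728) * (E 4 ^ 3 - E 6 ^ 2)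

/-- the `j`-invariant `j = E_4^3/Δ = q^{-1} + 744 + ⋯` -/
noncomputable def j : LaurentSeries ℚ :=
  (E 4 : LaurentSeries ℚ) ^ 3 / (Delta : LaurentSeries ℚ)

/-- `F^{(r)}_{k,C} = E_k/(j - j(C))^r`, where `j0 = j(C)` -/
noncomputable def F (k r : ℕ) (j0 : ℚ) : LaurentSeries ℚ :=
  (E k : LaurentSeries ℚ) / (j - HahnSeries.C j0) ^ r

/-- the coefficient `a_m(f)`, zero when `m` is not an integer -/
noncomputable def a (f : LaurentSeries ℚ) (m : ℚ) : ℚ := if m.den = 1 then f.coeff m.num else 0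

/-- `W` is an integral Weierstrass model of `C` with good reduction at `p` -/
structure GoodModel (C : WeierstrassCurve ℚ) (p : ℕ) (W : WeierstrassCurve ℤ) : Prop where
  /-- `W` is a model of `C` -/
  model : ∃ v : WeierstrassCurve.VariableChange ℚ, v • C = W.map (Int.castRingHom ℚ)
  /-- `p` does not divide the discriminant -/
  good : ¬ (p : ℤ) ∣ W.Δ

/-- `a_p = p + 1 - #W(𝔽_p)` -/
noncomputable def ap (W : WeierstrassCurve ℤ) (p : ℕ) : ℤ :=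
  p + 1 - (Nat.card (W.map (Int.castRingHom (ZMod p))).toAffine.Point : ℕ)

/-- `P_p(X) = ∏_{i=0}^{k-2} (X - α^{k-2-i} β^i)` -/
noncomputable def frob (k : ℕ) (α β : ℂ) : Polynomial ℂ :=
  ∏ i ∈ Finset.range (k - 1), (Polynomial.X - Polynomial.C (α ^ (k - 2 - i) * β ^ i))

/-- `x ≡ 0 (mod p^e)`, i.e. `v_p(x) ≥ e` -/
def CongrZero (p : ℕ) (e : ℤ) (x : ℚ) : Prop := x = 0 ∨ e ≤ padicValRat p x

/-- The congruence of Q1 for given `k, r, j(C), p, n, l` (the integers `c i` are the coefficients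
`c^{(k)}_{p,i}` of `P_p`). -/
def Holds (k r : ℕ) (j0 : ℚ) (W : WeierstrassCurve ℤ) (p n l : ℕ) : Prop :=
  ∀ α β : ℂ, α + β = (ap W p : ℂ) → α * β = (p : ℂ) →
    ∀ c : ℕ → ℤ, (∀ i < k, (frob k α β).coeff (k - 1 - i) = (c i : ℂ)) →
      CongrZero p (((k : ℤ) - 1) * l - ((k : ℤ) - 3) * k / 2 - r)
        (∑ i ∈ Finset.range k, (c i : ℚ) * a (F k r j0) ((n : ℚ) * (p : ℚ) ^ ((l : ℤ) - (i : ℤ))))

/-- The statement of Q1. -/
def Q1 : Prop :=
  ∀ k ∈ ({4, 6, 8, 10, 14} : Finset ℕ), ∀ r : ℕ, 1 ≤ r → r ≤ k - 1 →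
    ∀ (C : WeierstrassCurve ℚ) [C.IsElliptic], C.j ≠ 0 → C.j ≠ 1728 →
      ∀ p : ℕ, p.Prime → ∀ W : WeierstrassCurve ℤ, GoodModel C p W →
        padicValRat p C.j = 0 → padicValRat p (C.j - 1728) = 0 →
          ∀ n l : ℕ, 1 ≤ n → 1 ≤ l → Holds k r C.j W p n l

end Q279.FB
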