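import Pool.Agent.Q279.FB.Defs
import Pool.Agent.Q279.FB.Series

set_option autoImplicit false

namespace Q279.FB

open PowerSeries

/-- from `ℤ⟦X⟧` to Laurent series over `ℚ` -/
noncomputable def io : ℤ⟦X⟧ →+* LaurentSeries ℚ :=
  (HahnSeries.ofPowerSeries ℤ ℚ).comp (PowerSeries.map (Int.castRingHom ℚ))

theorem io_coeff (G : ℤ⟦X⟧) (n : ℕ) : (io G).coeff (n : ℤ) = ((coeff n G : ℤ) : ℚ) := by
  have h := PowerSeries.coeff_coe (PowerSeries.map (Int.castRingHom ℚ) G) (n : ℤ)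
  rw [if_neg (by omega), Int.natAbs_natCast, coeff_map] at h
  exact h

theorem io_inj : Function.Injective io := by
  intro F G h
  ext n
  have h1 := congrArg (fun f => HahnSeries.coeff f (n : ℤ)) h
  simp only [io_coeff] at h1
  exact_mod_cast h1

theorem bern4 : bernoulli 4 = -1 / 30 := by
  rw [bernoulli_eq_bernoulli'_of_ne_one (by norm_num), bernoulli'_four]

theorem bern6 : bernoulli 6 = 1 / 42 := by
  have h5 : bernoulli' 5 = 0 := bernoulli'_eq_zero_of_odd (by decide) (by norm_num)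
  rw [bernoulli_eq_bernoulli'_of_ne_one (by norm_num), bernoulli'_def]
  norm_num [Finset.sum_range_succ, h5, bernoulli'_four, bernoulli'_three, bernoulli'_two,
    bernoulli'_one, bernoulli'_zero, Nat.choose]

theorem E4_eq : E 4 = PowerSeries.map (Int.castRingHom ℚ) z4 := by
  ext n
  have e : (240 : ℤ⟦X⟧) = C 240 := (map_ofNat C 240).symm
  rw [E, coeff_mk, coeff_map, z4, map_add, e, coeff_C_mul, zA, coeff_mk, coeff_one, bern4]
  split_ifs with h
  · subst h; simp
  · rw [ArithmeticFunction.sigma_apply]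
    norm_num

theorem E6_eq : E 6 = PowerSeries.map (Int.castRingHom ℚ) z6 := by
  ext n
  have e : (504 : ℤ⟦X⟧) = C 504 := (map_ofNat C 504).symm
  rw [E, coeff_mk, coeff_map, z6, map_sub, e, coeff_C_mul, zB, coeff_mk, coeff_one, bern6]
  split_ifs with h
  · subst h; simp
  · rw [ArithmeticFunction.sigma_apply]
    norm_num

theorem Delta_eq : Delta = PowerSeries.map (Int.castRingHom ℚ) zD := by
  have h := congrArg (PowerSeries.map (Int.castRingHom ℚ)) disc
  rw [map_mul, map_sub, map_pow, map_pow, map_ofNat] at h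
  unfold Delta
  rw [E4_eq, E6_eq, ← h, ← mul_assoc]
  have h2 : (C (1 / 1728) : ℚ⟦X⟧) * 1728 = 1 := by
    rw [show (1728 : ℚ⟦X⟧) = C 1728 from (map_ofNat C 1728).symm, ← map_mul]
    norm_num
  rw [h2, one_mul]

theorem io_D_ne : io zD ≠ 0 := by
  intro h
  rw [← map_zero io] at h
  have := io_inj h
  have h1 := D_coeff_one
  rw [this] at h1
  simp at h1

theorem io_T_ne : io zT ≠ 0 := by
  intro h
  have h1 : io (zT * invOfUnit zT 1) = 1 := by rw [T_inv, map_one]
  rw [map_mul, h, zero_mul] at h1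
  exact zero_ne_one h1

theorem F_eq : F 6 1 2304 = io zF := by
  have e6 : (E 6 : LaurentSeries ℚ) = io z6 := by rw [E6_eq]; rfl
  have e4 : (E 4 : LaurentSeries ℚ) = io z4 := by rw [E4_eq]; rfl
  have eD : (Delta : LaurentSeries ℚ) = io zD := by rw [Delta_eq]; rfl
  have hD := io_D_ne
  have hT := io_T_ne
  have eT : io zT = io z4 ^ 3 - 2304 * io zD := by
    unfold zT
    rw [map_sub, map_pow, map_mul, map_ofNat]
  have eC : (HahnSeries.C (2304 : ℚ) : LaurentSeries ℚ) = 2304 := map_ofNat HahnSeries.C 2304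
  unfold F j
  rw [e6, e4, eD, eC, pow_one]
  have h1 : io z4 ^ 3 / io zD - 2304 = io zT / io zD := by
    rw [eT]
    field_simp
  rw [h1]
  have h2 := congrArg io zF_mul
  rw [map_mul, map_mul] at h2
  rw [div_div_eq_mul_div, div_eq_iff hT, ← h2]

theorem a_nat (f : LaurentSeries ℚ) (m : ℕ) : a f (m : ℚ) = f.coeff (m : ℤ) := by
  unfold a
  simp

/-- the curve `y^2 = x^3 - 3x + 1` -/
def W₀ : WeierstrassCurve ℤ := ⟨0, 0, 0, -3, 1⟩

/-- the same curve over `ℚ` -/
def C₀ : WeierstrassCurve ℚ := ⟨0, 0, 0, -3, 1⟩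

theorem W₀_Δ : W₀.Δ = 1296 := by
  unfold W₀ WeierstrassCurve.Δ WeierstrassCurve.b₂ WeierstrassCurve.b₄ WeierstrassCurve.b₆
    WeierstrassCurve.b₈
  norm_num

theorem C₀_Δ : C₀.Δ = 1296 := by
  unfold C₀ WeierstrassCurve.Δ WeierstrassCurve.b₂ WeierstrassCurve.b₄ WeierstrassCurve.b₆
    WeierstrassCurve.b₈
  norm_num

instance C₀_ell : C₀.IsElliptic := ⟨by rw [C₀_Δ]; exact isUnit_iff_ne_zero.2 (by norm_num)⟩

theorem C₀_c₄ : C₀.c₄ = 144 := by
  unfold C₀ WeierstrassCurve.c₄ WeierstrassCurve.b₂ WeierstrassCurve.b₄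
  norm_num

theorem C₀_j : C₀.j = 2304 := by
  unfold WeierstrassCurve.j
  rw [C₀_c₄]
  have h : ((C₀.Δ'⁻¹ : ℚˣ) : ℚ) = 1 / 1296 := by
    rw [Units.val_inv_eq_inv_val, WeierstrassCurve.coe_Δ', C₀_Δ]
    norm_num
  rw [h]
  norm_num

theorem good₀ : GoodModel C₀ 5 W₀ where
  model := ⟨1, by
    rw [one_smul]
    unfold C₀ W₀ WeierstrassCurve.map
    norm_num⟩
  good := by rw [W₀_Δ]; norm_num

instance : Fact (Nat.Prime 5) := ⟨by norm_num⟩

theorem card₀ : Nat.card (W₀.map (Int.castRingHom (ZMod 5))).toAffine.Point = 7 := by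
  rw [Nat.card_congr (WeierstrassCurve.Affine.nonsingularPointEquiv _)]
  have h : ∀ xy : ZMod 5 × ZMod 5, (W₀.map (Int.castRingHom (ZMod 5))).toAffine.Nonsingular xy.1 xy.2 ↔
      (xy.2 ^ 2 = xy.1 ^ 3 - 3 * xy.1 + 1) := by
    intro xy
    rw [WeierstrassCurve.Affine.nonsingular_iff, WeierstrassCurve.Affine.equation_iff]
    simp only [W₀, WeierstrassCurve.map, WeierstrassCurve.toAffine]
    obtain ⟨x, y⟩ := xy
    revert x y
    simp only [map_zero, map_neg, map_ofNat, map_one]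
    decide
  have h2 : Nat.card {xy : ZMod 5 × ZMod 5 //
      (W₀.map (Int.castRingHom (ZMod 5))).toAffine.Nonsingular xy.1 xy.2} = 6 := by
    rw [Nat.card_congr (Equiv.subtypeEquivRight h), Nat.card_eq_fintype_card]
    decide
  have h3 : Nat.card (WithZero {xy : ZMod 5 × ZMod 5 //
      (W₀.map (Int.castRingHom (ZMod 5))).toAffine.Nonsingular xy.1 xy.2}) =
      Nat.card {xy : ZMod 5 × ZMod 5 //
      (W₀.map (Int.castRingHom (ZMod 5))).toAffine.Nonsingular xy.1 xy.2} + 1 :=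
    Finite.card_option
  rw [h3, h2]

theorem ap₀ : ap W₀ 5 = -1 := by
  unfold ap
  rw [card₀]
  norm_num

/-- the coefficients of `P_5` -/
def c₀ : ℕ → ℤ
  | 0 => 1
  | 1 => -11
  | 2 => -495
  | 3 => 12375
  | 4 => 171875
  | 5 => -9765625
  | _ => 0

theorem frob_eq (α β : ℂ) (h1 : α + β = -1) (h2 : α * β = 5) :
    frob 6 α β = Polynomial.X ^ 5 - Polynomial.C 11 * Polynomial.X ^ 4 -
      Polynomial.C 495 * Polynomial.X ^ 3 + Polynomial.C 12375 * Polynomial.X ^ 2 +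
      Polynomial.C 171875 * Polynomial.X - Polynomial.C 9765625 := by
  unfold frob
  norm_num [Finset.prod_range_succ]
  have e1 : Polynomial.C α + Polynomial.C β = (-1 : Polynomial ℂ) := by
    rw [← map_add, h1, map_neg, map_one]
  have e2 : Polynomial.C α * Polynomial.C β = (5 : Polynomial ℂ) := by
    rw [← map_mul, h2, map_ofNat]
  set A := Polynomial.C α
  set B := Polynomial.C β
  have e3 : A ^ 2 + B ^ 2 = -9 := by linear_combination (A + B - 1) * e1 - 2 * e2
  have e4 : A ^ 4 + B ^ 4 = 31 := by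
    linear_combination (A ^ 2 + B ^ 2 - 9) * e3 - 2 * (A * B + 5) * e2
  have e5 : A ^ 3 * B + A * B ^ 3 = -45 := by
    linear_combination (A ^ 2 + B ^ 2) * e2 + 5 * e3
  have e6 : (A * B) ^ 2 = 25 := by rw [e2]; norm_num
  have e7 : (A * B) ^ 4 = 625 := by rw [e2]; norm_num
  have f1 : (Polynomial.X - A ^ 4) * (Polynomial.X - B ^ 4) =
      Polynomial.X ^ 2 - 31 * Polynomial.X + 625 := by
    linear_combination (-Polynomial.X) * e4 + e7
  have f2 : (Polynomial.X - A ^ 3 * B) * (Polynomial.X - A * B ^ 3) =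
      Polynomial.X ^ 2 + 45 * Polynomial.X + 625 := by
    linear_combination (-Polynomial.X) * e5 + e7
  calc _ = ((Polynomial.X - A ^ 4) * (Polynomial.X - B ^ 4)) *
        ((Polynomial.X - A ^ 3 * B) * (Polynomial.X - A * B ^ 3)) *
        (Polynomial.X - (A * B) ^ 2) := by ring
    _ = _ := by
      rw [f1, f2, e6]
      simp only [map_ofNat]
      ring

theorem coeff_frob (α β : ℂ) (h1 : α + β = -1) (h2 : α * β = 5) :
    ∀ i < 6, (frob 6 α β).coeff (6 - 1 - i) = (c₀ i : ℂ) := by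
  intro i hi
  rw [frob_eq α β h1 h2]
  interval_cases i <;>
    simp [Polynomial.coeff_X, Polynomial.coeff_C, Polynomial.coeff_X_pow, c₀]

theorem not_holds : ¬ Holds 6 1 C₀.j W₀ 5 1 5 := by
  intro h
  rw [C₀_j] at h
  -- the two roots
  obtain ⟨α, hα⟩ : ∃ α : ℂ, α ^ 2 + α + 5 = 0 := by
    obtain ⟨s, hs⟩ := IsAlgClosed.exists_pow_nat_eq (-19 : ℂ) (n := 2) (by norm_num)
    exact ⟨(-1 + s) / 2, by linear_combination hs / 4⟩
  have h1 := h α (-1 - α) (by rw [ap₀]; push_cast; ring)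
    (by push_cast; linear_combination -hα) c₀
    (coeff_frob α (-1 - α) (by ring) (by linear_combination -hα))
  have h2 : (∑ i ∈ Finset.range 6, (c₀ i : ℚ) *
      a (F 6 1 2304) (((1 : ℕ) : ℚ) * ((5 : ℕ) : ℚ) ^ (((5 : ℕ) : ℤ) - (i : ℤ)))) =
      ((coeff 3125 zF - 11 * coeff 625 zF - 495 * coeff 125 zF +
        12375 * coeff 25 zF + 171875 * coeff 5 zF - 9765625 * coeff 1 zF : ℤ) : ℚ) := by
    rw [F_eq]
    have key : ∀ i m : ℕ, ((1 : ℕ) : ℚ) * ((5 : ℕ) : ℚ) ^ (((5 : ℕ) : ℤ) - (i : ℤ)) = (m : ℚ) →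
        a (io zF) (((1 : ℕ) : ℚ) * ((5 : ℕ) : ℚ) ^ (((5 : ℕ) : ℤ) - (i : ℤ))) =
          ((coeff m zF : ℤ) : ℚ) := by
      intro i m hm
      rw [hm, a_nat, io_coeff]
    simp only [Finset.sum_range_succ, Finset.sum_range_zero]
    rw [key 0 3125 (by norm_num), key 1 625 (by norm_num), key 2 125 (by norm_num),
      key 3 25 (by norm_num), key 4 5 (by norm_num), key 5 1 (by norm_num)]
    simp only [c₀]
    push_cast
    ring
  rw [h2] at h1
  have h3 := not_dvd
  set S : ℤ := coeff 3125 zF - 11 * coeff 625 zF - 495 * coeff 125 zF +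
        12375 * coeff 25 zF + 171875 * coeff 5 zF - 9765625 * coeff 1 zF
  rcases h1 with h1 | h1
  · have : S = 0 := by exact_mod_cast h1
    rw [this] at h3
    exact h3 (dvd_zero _)
  · apply h3
    by_cases hS : S = 0
    · rw [hS]; exact dvd_zero _
    rw [padicValRat.of_int] at h1
    have h4 : 15 ≤ padicValInt 5 S := by
      norm_num at h1
      exact_mod_cast h1
    have h5 := (padicValInt_dvd_iff (p := 5) 15 S).2 (Or.inr h4)
    exact_mod_cast h5

/-- **Q1 is false**, already for `k = 6`, `r = 1`, `p = 5`. -/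
theorem main : ¬ Q1 ∧
    (GoodModel C₀ 5 W₀ ∧ C₀.j = 2304 ∧ padicValRat 5 C₀.j = 0 ∧
      padicValRat 5 (C₀.j - 1728) = 0 ∧ ¬ Holds 6 1 C₀.j W₀ 5 1 5) := by
  have h1 : padicValRat 5 C₀.j = 0 := by
    rw [C₀_j]
    have : padicValRat 5 ((2304 : ℕ) : ℚ) = 0 := by
      rw [padicValRat.of_nat, padicValNat.eq_zero_of_not_dvd (by norm_num)]; rfl
    exact_mod_cast this
  have h2 : padicValRat 5 (C₀.j - 1728) = 0 := by
    rw [C₀_j]
    have : padicValRat 5 ((576 : ℕ) : ℚ) = 0 := by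
      rw [padicValRat.of_nat, padicValNat.eq_zero_of_not_dvd (by norm_num)]; rfl
    have e : (2304 : ℚ) - 1728 = ((576 : ℕ) : ℚ) := by norm_num
    rw [e]
    exact this
  refine ⟨fun h => ?_, good₀, C₀_j, h1, h2, not_holds⟩
  exact not_holds (h 6 (by decide) 1 le_rfl (by norm_num) C₀ (by rw [C₀_j]; norm_num)
    (by rw [C₀_j]; norm_num) 5 (by norm_num) W₀ good₀ h1 h2 1 5 le_rfl (by norm_num))

end Q279.FB
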